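import Pool.Agent.Helper95.Lin.GoalsD
import Pool.Agent.Helper95.Lin.Basics

set_option autoImplicit false

/-! # PLU: uniform local existence of integral curves -/

open Complex Metric Set Filter Topology MeasureTheory
open scoped ContDiff ComplexConjugate ComplexOrder NNReal

namespace Pool.Agent.Helper3.Lin

open Pool.Agent.Helper95.Lin ODE

/-- Picard-Lindelöf with the information that the solution stays in the ball. -/
theorem pl_ball {E : Type*} [NormedAddCommGroup E] [NormedSpace ℝ E] [CompleteSpace E]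
    {f : ℝ → E → E} {tmin tmax : ℝ} {t₀ : Icc tmin tmax} {x₀ x : E} {a r L K : ℝ≥0}
    (hf : IsPicardLindelof f t₀ x₀ a r L K) (hx : x ∈ closedBall x₀ r) :
    ∃ α : ℝ → E, α t₀ = x ∧ ∀ t ∈ Icc tmin tmax, α t ∈ closedBall x₀ a ∧
      HasDerivWithinAt α (f t (α t)) (Icc tmin tmax) t := by
  obtain ⟨α, hα⟩ := FunSpace.exists_isFixedPt_next hf hx
  refine ⟨α.compProj, by rw [FunSpace.compProj_val, ← hα, FunSpace.next_apply₀], fun t ht =>
    ⟨α.compProj_mem_closedBall hf.mul_max_le, ?_⟩⟩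
  apply hasDerivWithinAt_picard_Icc t₀.2 hf.continuousOn_uncurry
    α.continuous_compProj.continuousOn (fun _ ht' ↦ α.compProj_mem_closedBall hf.mul_max_le)
    x ht |>.congr_of_mem _ ht
  intro t' ht'
  nth_rw 1 [← hα]
  rw [FunSpace.compProj_of_mem ht', FunSpace.next_apply]

/-- Uniform local existence. -/
theorem PLU : S_PLU := by
  intro b m D hD V hV K hKD hK
  obtain ⟨ρ, hρ, hρD⟩ := hK.exists_cthickening_subset_open hD hKD
  have hK1 : IsCompact (cthickening ρ K) := hK.cthickening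
  have hM : ∀ k, ∃ C : ℝ, 0 ≤ C ∧ ∀ x ∈ cthickening ρ K, ‖V k x‖ ≤ C := by
    intro k
    obtain ⟨C, hC⟩ := hK1.exists_bound_of_continuousOn ((hV k).continuousOn.mono hρD)
    exact ⟨max C 0, le_max_right _ _, fun x hx => (hC x hx).trans (le_max_left _ _)⟩
  have hΛ : ∀ k, ∃ C : ℝ≥0, ∀ x ∈ cthickening ρ K, ‖fderiv ℂ (V k) x‖₊ ≤ C := by
    intro k
    obtain ⟨C, hC⟩ := hK1.exists_bound_of_continuousOn
      ((holo_fderiv hD (hV k)).continuousOn.mono hρD)
    refine ⟨Real.toNNReal (max C 0), fun x hx => ?_⟩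
    rw [← NNReal.coe_le_coe, Real.coe_toNNReal _ (le_max_right _ _)]
    exact (hC x hx).trans (le_max_left _ _)
  choose M hM0 hM using hM
  choose Λ hΛ using hΛ
  have hS0 : 0 ≤ ∑ k, M k := Finset.sum_nonneg fun k _ => hM0 k
  set δ₀ : ℝ := ρ / (∑ k, M k + 1) with hδ₀
  have hδ0 : 0 < δ₀ := by positivity
  refine ⟨δ₀, hδ0, fun w hw z hz => ?_⟩
  have hball : closedBall z ρ ⊆ cthickening ρ K := closedBall_subset_cthickening hz ρ
  have hwk : ∀ k, ‖w k‖ ≤ 1 := fun k => (norm_le_pi_norm w k).trans hw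
  have hnorm : ∀ x ∈ closedBall z ρ, ‖∑ k, w k • V k x‖ ≤ ∑ k, M k := by
    intro x hx
    refine (norm_sum_le _ _).trans (Finset.sum_le_sum fun k _ => ?_)
    rw [norm_smul]
    calc ‖w k‖ * ‖V k x‖ ≤ 1 * M k :=
          mul_le_mul (hwk k) (hM k x (hball hx)) (norm_nonneg _) zero_le_one
      _ = M k := one_mul _
  have hlip1 : ∀ k, LipschitzOnWith (Λ k) (V k) (closedBall z ρ) := by
    intro k
    refine Convex.lipschitzOnWith_of_nnnorm_fderiv_le (𝕜 := ℂ) (fun x hx => ?_)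
      (fun x hx => hΛ k x (hball hx)) (convex_closedBall z ρ)
    exact (hV k).differentiableAt (hD.mem_nhds (hρD (hball hx)))
  have hlip : LipschitzOnWith (∑ k, Λ k) (fun x => ∑ k, w k • V k x) (closedBall z ρ) := by
    refine LipschitzOnWith.of_dist_le_mul fun x hx y hy => ?_
    rw [dist_eq_norm, dist_eq_norm, ← Finset.sum_sub_distrib]
    refine (norm_sum_le _ _).trans ?_
    rw [NNReal.coe_sum, Finset.sum_mul]
    refine Finset.sum_le_sum fun k _ => ?_
    rw [← smul_sub, norm_smul]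
    have h1 := (hlip1 k).norm_sub_le hx hy
    calc ‖w k‖ * ‖V k x - V k y‖ ≤ 1 * (Λ k * ‖x - y‖) :=
          mul_le_mul (hwk k) h1 (norm_nonneg _) zero_le_one
      _ = Λ k * ‖x - y‖ := one_mul _
  have h0 : (0 : ℝ) ∈ Icc (0 : ℝ) δ₀ := ⟨le_rfl, hδ0.le⟩
  have hPL : IsPicardLindelof (fun _ : ℝ => fun x => ∑ k, w k • V k x) (⟨0, h0⟩ : Icc (0 : ℝ) δ₀)
      z ⟨ρ, hρ.le⟩ 0 ⟨∑ k, M k, hS0⟩ (∑ k, Λ k) := by
    refine IsPicardLindelof.of_time_independent hnorm hlip ?_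
    show (∑ k, M k) * max (δ₀ - 0) (0 - 0) ≤ ρ - 0
    rw [sub_zero, sub_zero, sub_zero, max_eq_left hδ0.le, hδ₀, ← mul_div_assoc,
      div_le_iff₀ (by positivity)]
    nlinarith
  obtain ⟨α, hα0, hα⟩ := pl_ball hPL (mem_closedBall_self le_rfl)
  exact ⟨α, hα0, fun t ht => ⟨hρD (hball (hα t ht).1), (hα t ht).2⟩⟩

end Pool.Agent.Helper3.Lin
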