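import Pool.Agent.Helper95.Lin.GoalsA
import Pool.Agent.Helper95.Lin.Basics

set_option autoImplicit false

/-! # ALT: the alternative for a non-discrete group -/

open Complex Metric Set Filter Topology MeasureTheory
open scoped ContDiff ComplexConjugate ComplexOrder

namespace Pool.Agent.Helper3.Lin

open Pool.Agent.Helper95.Lin

/-- Finitely many positive numbers have a positive lower bound. -/
theorem exists_pos_le {p : ℕ} (f : Fin p → ℝ) (hf : ∀ i, 0 < f i) :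
    ∃ δ > 0, ∀ i, δ ≤ f i := by
  have h1 : ∀ᶠ δ in 𝓝[>] (0 : ℝ), ∀ i, δ ≤ f i := by
    rw [eventually_all]
    intro i
    exact mem_of_superset (Ioo_mem_nhdsGT (hf i)) fun x hx => hx.2.le
  have h2 : ∀ᶠ δ in 𝓝[>] (0 : ℝ), 0 < δ := self_mem_nhdsWithin
  obtain ⟨δ, h3, h4⟩ := (h1.and h2).exists
  exact ⟨δ, h4, h3⟩

/-- Comparison of norms on a finite dimensional space of functions. -/
theorem norm_cmp {b p : ℕ} {D : Set (Cn b)} {𝔤 : Type} [AddCommGroup 𝔤] [Module ℝ 𝔤]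
    [FiniteDimensional ℝ 𝔤] (Φ : 𝔤 →ₗ[ℝ] (Cn b → Cn b)) (π : 𝔤 →ₗ[ℝ] (Fin p → ℝ))
    {K₀ : Set (Cn b)} (hK₀D : K₀ ⊆ D) (hK₀ : IsCompact K₀) (hcont : ∀ y, ContinuousOn (Φ y) D)
    (hinj : ∀ y, (∀ z ∈ K₀, Φ y z = 0) → y = 0) :
    ∃ C : ℝ, 0 ≤ C ∧ ∀ y : 𝔤, ∀ s : ℝ, 0 ≤ s → (∀ z ∈ K₀, ‖Φ y z‖ ≤ s) → ‖π y‖ ≤ C * s := by
  classical
  haveI : CompactSpace K₀ := isCompact_iff_compactSpace.1 hK₀
  let e : 𝔤 ≃ₗ[ℝ] (Fin (Module.finrank ℝ 𝔤) → ℝ) := (Module.finBasis ℝ 𝔤).equivFun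
  let F : (Fin (Module.finrank ℝ 𝔤) → ℝ) →ₗ[ℝ] C(K₀, Cn b) :=
    { toFun := fun c => ⟨fun z => Φ (e.symm c) z,
        ((hcont (e.symm c)).mono hK₀D).domRestrict⟩
      map_add' := by
        intro c c'
        ext z i
        simp [map_add]
      map_smul' := by
        intro r c
        ext z i
        simp [map_smul] }
  have hF : LinearMap.ker F = ⊥ := by
    rw [LinearMap.ker_eq_bot']
    intro c hc
    have h1 : e.symm c = 0 := by
      apply hinj
      intro z hz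
      have := congrArg (fun f : C(K₀, Cn b) => f ⟨z, hz⟩) hc
      simpa [F] using this
    have := congrArg e h1
    simpa using this
  obtain ⟨K, -, hK⟩ := LinearMap.exists_antilipschitzWith F hF
  let G : (Fin (Module.finrank ℝ 𝔤) → ℝ) →L[ℝ] (Fin p → ℝ) :=
    LinearMap.toContinuousLinearMap (π ∘ₗ (e.symm : (Fin (Module.finrank ℝ 𝔤) → ℝ) →ₗ[ℝ] 𝔤))
  refine ⟨‖G‖ * K, by positivity, fun y s hs hy => ?_⟩
  have h1 : ‖F (e y)‖ ≤ s := by
    rw [ContinuousMap.norm_le _ hs]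
    intro z
    have := hy z.1 z.2
    simpa [F] using this
  have h2 : ‖e y‖ ≤ K * ‖F (e y)‖ := by
    have := hK.le_mul_dist (e y) 0
    simpa [dist_eq_norm] using this
  have h3 : π y = G (e y) := by simp [G]
  rw [h3]
  calc ‖G (e y)‖ ≤ ‖G‖ * ‖e y‖ := G.le_opNorm _
    _ ≤ ‖G‖ * (K * s) := by
        refine mul_le_mul_of_nonneg_left (h2.trans ?_) (norm_nonneg _)
        exact mul_le_mul_of_nonneg_left h1 (by positivity)
    _ = ‖G‖ * K * s := by ring

/-- The operator norm is bounded by the sum of the norms of the columns. -/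
theorem endo_norm_le {p : ℕ} (T : Endo p) (δ : ℝ)
    (hT : ∀ i : Fin p, ‖T (Pi.single i 1)‖ ≤ δ) (hδ : 0 ≤ δ) : ‖T‖ ≤ p * δ := by
  refine T.opNorm_le_bound (by positivity) fun x => ?_
  have h1 : x = ∑ i, x i • (Pi.single i (1 : ℝ) : Fin p → ℝ) := by
    ext j
    simp [Finset.sum_apply, Pi.single_apply]
  have h2 : T x = ∑ i, x i • T (Pi.single i 1) := by
    conv_lhs => rw [h1]
    rw [map_sum]
    simp only [map_smul]
  rw [h2]
  calc ‖∑ i, x i • T (Pi.single i 1)‖ ≤ ∑ i, ‖x i • T (Pi.single i 1)‖ := norm_sum_le _ _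
    _ ≤ ∑ _i : Fin p, ‖x‖ * δ := by
        refine Finset.sum_le_sum fun i _ => ?_
        rw [norm_smul]
        exact mul_le_mul (norm_le_pi_norm x i) (hT i) (norm_nonneg _) (norm_nonneg _)
    _ = p * δ * ‖x‖ := by
        rw [Finset.sum_const, Finset.card_univ, Fintype.card_fin, nsmul_eq_mul]
        ring

theorem ALT (hLALG : S_LALG) (hLIE1 : S_LIE1) (hLIE2 : S_LIE2) (hADAPX : S_ADAPX)
    (hLCMP : S_LCMP) : S_ALT := by
  intro b D Γ _ g hg hV
  obtain ⟨𝔤, iLR, iLA, Φ, ρ, hfd, hinj, hL, hbr, hρ, hAd⟩ := hLALG hg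
  obtain ⟨V₀, hV₀, z₀, hz₀, hVz⟩ := hV
  have hzero : ∀ x z, z ∉ D → Φ x z = 0 := fun x z hz => ((hL (Φ x)).2 ⟨x, rfl⟩).2.1 z hz
  have hdiff : ∀ x, DifferentiableOn ℂ (Φ x) D := fun x => ((hL (Φ x)).2 ⟨x, rfl⟩).1
  by_cases hsol : LieAlgebra.IsSolvable 𝔤
  · left
    haveI : Nontrivial 𝔤 := by
      obtain ⟨x, hx⟩ := (hL V₀).1 hV₀
      refine ⟨⟨x, 0, ?_⟩⟩
      rintro rfl
      rw [map_zero] at hx
      rw [← hx] at hVz
      exact hVz rfl
    obtain ⟨m, v, A, hm, hv, hvv, hA⟩ := hLIE1 𝔤 hsol Γ ρ hρ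
    refine ⟨m, fun i => Φ (v i), A, ⟨hm, fun i => (hL _).2 ⟨v i, rfl⟩, ?_, ?_, ?_⟩⟩
    · exact hv.map' Φ (LinearMap.ker_eq_bot.2 hinj)
    · intro i j z _
      rw [← hbr, hvv, map_zero]
      rfl
    · intro γ i z hz
      have h1 := congrFun (hAd γ (v i)) (g γ z)
      rw [hA γ i] at h1
      rw [AdV, indicator_of_mem (hg.act.maps γ z hz), hg.act.inv_left γ hz] at h1
      rw [← h1]
      simp [map_sum, Finset.sum_apply]
  · right
    obtain ⟨p, B, π, P, hB, hsurj, hπ, hP⟩ := hLIE2 𝔤 hsol Γ ρ hρ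
    refine ⟨p, B, P, ⟨hB, ?_, ?_⟩⟩
    · intro γ x y
      obtain ⟨x, rfl⟩ := hsurj x
      obtain ⟨y, rfl⟩ := hsurj y
      rw [← hπ, ← hP, hρ, hπ, hP, hP]
    · intro K hKD hK ε hε
      -- a small closed ball
      obtain ⟨r, hr, hball⟩ := Metric.isOpen_iff.1 hg.dom.isOpen z₀ hz₀
      set K₀ : Set (Cn b) := closedBall z₀ (r / 2) with hK₀
      have hK₀D : K₀ ⊆ D := (closedBall_subset_ball (by linarith)).trans hball
      have hK₀c : IsCompact K₀ := isCompact_closedBall _ _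
      have hK₀i : (interior K₀).Nonempty :=
        ⟨z₀, mem_interior.2 ⟨ball z₀ (r / 2), ball_subset_closedBall, isOpen_ball,
          mem_ball_self (by linarith)⟩⟩
      have hinj' : ∀ y, (∀ z ∈ K₀, Φ y z = 0) → y = 0 := by
        intro y hy
        apply hinj
        rw [map_zero]
        funext z
        by_cases hz : z ∈ D
        · obtain ⟨C, -, hC⟩ := hLCMP hg K₀ hK₀D hK₀c hK₀i {z} (by simpa using hz)
            isCompact_singleton
          have := hC (Φ y) ((hL _).2 ⟨y, rfl⟩) 0 (fun w hw => by rw [hy w hw]; simp) z rfl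
          rw [mul_zero] at this
          simpa using this
        · exact hzero y z hz
      obtain ⟨C, hC0, hC⟩ := norm_cmp Φ π hK₀D hK₀c (fun y => (hdiff y).continuousOn) hinj'
      -- it is enough to treat one index at a time
      have key : ∀ k : Fin p, ∀ᶠ σ in 𝓝[>] (0 : ℝ), ∃ γ, (∀ z ∈ K, ‖g γ z - z‖ ≤ ε) ∧
          ‖P γ - 1 - σ • adB B (Pi.single k 1)‖ ≤ ε * σ := by
        intro k
        obtain ⟨x, hx⟩ := hsurj (-(Pi.single k 1))
        choose y hy using fun i : Fin p => hsurj (Pi.single i 1)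
        set ε₁ : ℝ := ε / (p * C + 1) with hε₁
        have hden : (0 : ℝ) < p * C + 1 := by positivity
        have hε₁0 : 0 < ε₁ := by positivity
        have hap : ∀ i : Fin p, ∃ K' ⊆ D, IsCompact K' ∧ ∃ ε' > 0, ∃ σ₀ > 0,
            ∀ σ : ℝ, 0 < σ → σ < σ₀ → ∀ γ, (∀ z ∈ K', ‖g γ z - z - σ • Φ x z‖ ≤ ε' * σ) →
              ∀ z ∈ K₀, ‖AdV D g γ (Φ (y i)) z - Φ (y i) z + σ • brV (Φ x) (Φ (y i)) z‖
                ≤ ε₁ * σ := fun i =>
          hADAPX hg (Φ x) (Φ (y i)) (hdiff x) (hdiff (y i)) K₀ hK₀D hK₀c ε₁ hε₁0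
        choose K' hK'D hK'c ε' hε' σ₀ hσ₀ hap using hap
        obtain ⟨ε₂, hε₂, hε₂'⟩ := exists_pos_le ε' hε'
        obtain ⟨σ₁, hσ₁, hσ₁'⟩ := exists_pos_le σ₀ hσ₀
        obtain ⟨M, hM⟩ := hK.exists_bound_of_continuousOn ((hdiff x).continuousOn.mono hKD)
        have hM0 : ∃ M' : ℝ, 0 < M' ∧ ∀ z ∈ K, ‖Φ x z‖ ≤ M' :=
          ⟨max M 1, by positivity, fun z hz => (hM z hz).trans (le_max_left _ _)⟩
        obtain ⟨M', hM'0, hM'⟩ := hM0
        have hKK : K ∪ ⋃ i, K' i ⊆ D := union_subset hKD (iUnion_subset hK'D)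
        have hKKc : IsCompact (K ∪ ⋃ i, K' i) := hK.union (isCompact_iUnion hK'c)
        obtain ⟨σ₂, hσ₂, hσ₂'⟩ := ((hL (Φ x)).2 ⟨x, rfl⟩).2.2 _ hKK hKKc (min ε₂ 1)
          (lt_min hε₂ one_pos)
        have hmin : 0 < min σ₁ (min σ₂ (ε / (M' + 1))) :=
          lt_min hσ₁ (lt_min hσ₂ (by positivity))
        refine mem_of_superset (Ioo_mem_nhdsGT hmin) ?_
        rintro σ ⟨hσ0, hσ⟩
        rw [lt_min_iff, lt_min_iff] at hσ
        obtain ⟨hσa, hσb, hσc⟩ := hσ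
        obtain ⟨γ, hγ⟩ := hσ₂' σ hσ0 hσb
        refine ⟨γ, ?_, ?_⟩
        · intro z hz
          have h1 := hγ z (Or.inl hz)
          have h2 : ‖g γ z - z‖ ≤ ‖g γ z - z - σ • Φ x z‖ + ‖σ • Φ x z‖ := by
            have := norm_add_le (g γ z - z - σ • Φ x z) (σ • Φ x z)
            rwa [sub_add_cancel] at this
          have h3 : ‖σ • Φ x z‖ ≤ σ * M' := by
            rw [norm_smul, Real.norm_of_nonneg hσ0.le]
            exact mul_le_mul_of_nonneg_left (hM' z hz) hσ0.le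
          have h4 : min ε₂ 1 * σ ≤ 1 * σ := mul_le_mul_of_nonneg_right (min_le_right _ _) hσ0.le
          have h5 : σ * (M' + 1) ≤ ε := by
            rw [lt_div_iff₀ (by positivity)] at hσc
            exact hσc.le
          linarith
        · set T : Endo p := P γ - 1 - σ • adB B (Pi.single k 1) with hT
          have hTi : ∀ i : Fin p, ‖T (Pi.single i 1)‖ ≤ C * (ε₁ * σ) := by
            intro i
            have h1 : T (Pi.single i 1) = π (ρ γ (y i) - y i + σ • ⁅x, y i⁆) := by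
              rw [map_add, map_sub, map_smul, hP, hπ, hx, hy i, hT]
              simp [adB]
              abel
            rw [h1]
            refine hC _ _ (by positivity) fun z hz => ?_
            have h2 := hap i σ hσ0 (hσa.trans_le (hσ₁' i)) γ (fun w hw => ?_) z hz
            · have h3 : Φ (ρ γ (y i) - y i + σ • ⁅x, y i⁆) z =
                  AdV D g γ (Φ (y i)) z - Φ (y i) z + σ • brV (Φ x) (Φ (y i)) z := by
                rw [map_add, map_sub, map_smul, hAd, hbr]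
                rfl
              rw [h3]
              exact h2
            · refine (hγ w (Or.inr (mem_iUnion.2 ⟨i, hw⟩))).trans ?_
              exact mul_le_mul_of_nonneg_right ((min_le_left _ _).trans (hε₂' i)) hσ0.le
          refine (endo_norm_le T _ hTi (by positivity)).trans ?_
          have h6 : (p : ℝ) * C * ε₁ ≤ ε := by
            rw [hε₁]
            rw [← mul_div_assoc, div_le_iff₀ hden]
            nlinarith
          calc (p : ℝ) * (C * (ε₁ * σ)) = p * C * ε₁ * σ := by ring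
            _ ≤ ε * σ := mul_le_mul_of_nonneg_right h6 hσ0.le
      have hall : ∀ᶠ σ in 𝓝[>] (0 : ℝ), ∀ k : Fin p, ∃ γ, (∀ z ∈ K, ‖g γ z - z‖ ≤ ε) ∧
          ‖P γ - 1 - σ • adB B (Pi.single k 1)‖ ≤ ε * σ := eventually_all.2 key
      obtain ⟨σ₀, hσ₀, hsub⟩ := mem_nhdsGT_iff_exists_Ioo_subset.1 hall
      exact ⟨σ₀, hσ₀, fun σ h1 h2 k => hsub ⟨h1, h2⟩ k⟩

end Pool.Agent.Helper3.Lin
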